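import Pool.Agent.H75.L.W662.CB.All
import Pool.Agent.H75.L.W853.CB2.Q10

set_option autoImplicit false

namespace Pool.Agent.W853.CB2

open Pool.Agent.W662.CB

theorem q10 (h1 : S_Q1) (h2 : S_Q2) : S_Q10 :=
  q10_of h1 h2 pB1 pB5 pB6 pB7 pB8 pB9 pA7 pC7 pD3

end Pool.Agent.W853.CB2
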